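import Mathlib

set_option autoImplicit false

/-!
# A surface with a line and a vertical-axis parabola through each point that has no
parametrization of the form `(P/(UV), Q/(UV), Z/(U²V))`

The surface is the part `x > 0` of the hyperbolic paraboloid `z = xy`, with the segments in the planes
`x = const` and the parabolas cut out by the vertical planes `y = e^t x + t`.
-/

namespace Pool.Agent.Results.MP_67bdec_gt.TranscendentalFamily

open Set MeasureTheory Filter Topology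

/-- The point with parameter `τ` of the vertical-axis parabola
`τ ↦ (x₀ + aτ, y₀ + bτ, cτ² + dτ + e)`. -/
def parab (x₀ y₀ a b c d e : ℝ) (τ : ℝ) : ℝ × ℝ × ℝ :=
  (x₀ + a * τ, y₀ + b * τ, c * τ ^ 2 + d * τ + e)

/-- `ℝ_{m,n}`: the real polynomials in `(u, v)` of degree at most `m` in `u` and at most `n` in `v`,
as functions. -/
def Rmn (m n : ℕ) : Set (ℝ → ℝ → ℝ) :=
  {f | ∃ c : ℕ → ℕ → ℝ, ∀ u v, f u v =
    ∑ i ∈ Finset.range (m + 1), ∑ j ∈ Finset.range (n + 1), c i j * u ^ i * v ^ j}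

/-- The hypothesis of the problem. The analytic surface is `S = Ψ(Ω)` for an injective real-analytic
immersion `Ψ` of a connected open set `Ω` of the plane. Through the point `p = Ψ w` pass the segment
with the endpoints `A w`, `B w` and the open arc of a vertical-axis parabola with the coefficients
`x₀ w, y₀ w, a w, b w, c w, d w, e w` and the parameter interval `(t₁ w, t₂ w)`. All these data are
real-analytic functions of `w`, that is, of the point `p`. -/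
structure LineAndParabola (Ω : Set (ℝ × ℝ)) (Ψ A B : ℝ × ℝ → ℝ × ℝ × ℝ)
    (x₀ y₀ a b c d e t₁ t₂ : ℝ × ℝ → ℝ) : Prop where
  isOpen : IsOpen Ω
  connected : IsConnected Ω
  analytic : AnalyticOnNhd ℝ Ψ Ω
  immersion : ∀ w ∈ Ω, Function.Injective (fderiv ℝ Ψ w)
  injective : InjOn Ψ Ω
  seg_analytic : AnalyticOnNhd ℝ A Ω ∧ AnalyticOnNhd ℝ B Ω
  seg_ne : ∀ w ∈ Ω, A w ≠ B w
  seg_mem : ∀ w ∈ Ω, Ψ w ∈ openSegment ℝ (A w) (B w)
  seg_sub : ∀ w ∈ Ω, segment ℝ (A w) (B w) ⊆ Ψ '' Ω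
  arc_analytic : AnalyticOnNhd ℝ x₀ Ω ∧ AnalyticOnNhd ℝ y₀ Ω ∧ AnalyticOnNhd ℝ a Ω ∧
    AnalyticOnNhd ℝ b Ω ∧ AnalyticOnNhd ℝ c Ω ∧ AnalyticOnNhd ℝ d Ω ∧ AnalyticOnNhd ℝ e Ω ∧
    AnalyticOnNhd ℝ t₁ Ω ∧ AnalyticOnNhd ℝ t₂ Ω
  arc_ab : ∀ w ∈ Ω, (a w, b w) ≠ (0, 0)
  arc_c : ∀ w ∈ Ω, c w ≠ 0
  /-- the arc passes through the point and is transversal to the segment there -/
  arc_mem : ∀ w ∈ Ω, ∃ τ ∈ Ioo (t₁ w) (t₂ w),
    parab (x₀ w) (y₀ w) (a w) (b w) (c w) (d w) (e w) τ = Ψ w ∧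
    LinearIndependent ℝ ![B w - A w, (a w, b w, 2 * c w * τ + d w)]
  arc_sub : ∀ w ∈ Ω, ∀ τ ∈ Ioo (t₁ w) (t₂ w),
    parab (x₀ w) (y₀ w) (a w) (b w) (c w) (d w) (e w) τ ∈ Ψ '' Ω

/-- The conclusion of the problem, in a weak form, for the exceptional set `E`: there are
`P, Q ∈ ℝ_{1,1}`, `Z ∈ ℝ_{2,1}` and nonzero `U ∈ ℝ_{1,0}`, `V ∈ ℝ_{0,1}` such that, outside of `E`,
every segment is contained in a curve `u = const` of the map `(P/(UV), Q/(UV), Z/(U²V))` and every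
parabolic arc is contained in a curve `v = const` of it. -/
def Represented (Ω : Set (ℝ × ℝ)) (A B : ℝ × ℝ → ℝ × ℝ × ℝ)
    (x₀ y₀ a b c d e t₁ t₂ : ℝ × ℝ → ℝ) (E : Set (ℝ × ℝ × ℝ)) : Prop :=
  ∃ P ∈ Rmn 1 1, ∃ Q ∈ Rmn 1 1, ∃ Z ∈ Rmn 2 1, ∃ U ∈ Rmn 1 0, ∃ V ∈ Rmn 0 1, U ≠ 0 ∧ V ≠ 0 ∧
    (∀ w ∈ Ω, ∃ u, ∀ q ∈ segment ℝ (A w) (B w), q ∉ E → ∃ v, U u v * V u v ≠ 0 ∧
      q = (P u v / (U u v * V u v), Q u v / (U u v * V u v), Z u v / (U u v ^ 2 * V u v))) ∧
    (∀ w ∈ Ω, ∃ v, ∀ τ ∈ Ioo (t₁ w) (t₂ w),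
      parab (x₀ w) (y₀ w) (a w) (b w) (c w) (d w) (e w) τ ∉ E → ∃ u, U u v * V u v ≠ 0 ∧
      parab (x₀ w) (y₀ w) (a w) (b w) (c w) (d w) (e w) τ =
        (P u v / (U u v * V u v), Q u v / (U u v * V u v), Z u v / (U u v ^ 2 * V u v)))

/-! ## The example -/

/-- The parameter domain: points `(t, s)` with `s > 0`. -/
def Om : Set (ℝ × ℝ) := {w | 0 < w.2}

/-- The immersion. -/
noncomputable def Ps (w : ℝ × ℝ) : ℝ × ℝ × ℝ :=
  (w.2, w.2 * Real.exp w.1 + w.1, w.2 * (w.2 * Real.exp w.1 + w.1))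

/-- First endpoint of the segment. -/
noncomputable def Aa (w : ℝ × ℝ) : ℝ × ℝ × ℝ :=
  (w.2, w.2 * Real.exp w.1 + w.1 - 1, w.2 * (w.2 * Real.exp w.1 + w.1 - 1))

/-- Second endpoint of the segment. -/
noncomputable def Bb (w : ℝ × ℝ) : ℝ × ℝ × ℝ :=
  (w.2, w.2 * Real.exp w.1 + w.1 + 1, w.2 * (w.2 * Real.exp w.1 + w.1 + 1))

theorem g_strictMono {x : ℝ} (hx : 0 < x) : StrictMono fun t : ℝ => x * Real.exp t + t := by
  intro t t' h
  have := Real.exp_lt_exp.2 h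
  have h2 := mul_lt_mul_of_pos_left this hx
  simp only
  linarith

theorem g_surj {x : ℝ} (hx : 0 < x) (y : ℝ) : ∃ t, x * Real.exp t + t = y := by
  have hc : ContinuousOn (fun t : ℝ => x * Real.exp t + t) (Icc (y - x * Real.exp y) y) := by
    fun_prop
  have hle : y - x * Real.exp y ≤ y := by
    have := mul_pos hx (Real.exp_pos y)
    linarith
  have h1 : (fun t : ℝ => x * Real.exp t + t) (y - x * Real.exp y) ≤ y := by
    have := mul_le_mul_of_nonneg_left (Real.exp_le_exp.2 hle) hx.le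
    simp only
    linarith
  have h2 : y ≤ (fun t : ℝ => x * Real.exp t + t) y := by
    have := mul_pos hx (Real.exp_pos y)
    simp only
    linarith
  obtain ⟨t, -, ht⟩ := intermediate_value_Icc hle hc ⟨h1, h2⟩
  exact ⟨t, ht⟩

theorem image_eq : Ps '' Om = {q : ℝ × ℝ × ℝ | 0 < q.1 ∧ q.2.2 = q.1 * q.2.1} := by
  ext ⟨x, y, z⟩
  constructor
  · rintro ⟨w, hw, h⟩
    simp only [Ps, Prod.mk.injEq] at h
    obtain ⟨h1, h2, h3⟩ := h
    refine ⟨h1 ▸ hw, ?_⟩
    simp only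
    rw [← h3, ← h2, ← h1]
  · rintro ⟨h1, h2⟩
    simp only at h1 h2
    obtain ⟨t, ht⟩ := g_surj h1 y
    refine ⟨(t, x), h1, ?_⟩
    simp only [Ps, Prod.mk.injEq]
    exact ⟨trivial, ht, by rw [ht, h2]⟩

theorem Ps_injOn : InjOn Ps Om := by
  intro w hw w' hw' h
  simp only [Ps, Prod.mk.injEq] at h
  obtain ⟨h1, h2, -⟩ := h
  have : w.1 = w'.1 := by
    apply (g_strictMono (show 0 < w.2 from hw)).injective
    simp only
    rw [h2, h1]
  exact Prod.ext this h1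

theorem Ps_fderiv_inj (w : ℝ × ℝ) (hw : w ∈ Om) : Function.Injective (fderiv ℝ Ps w) := by
  have hf : HasFDerivAt (fun w : ℝ × ℝ => w.1) (ContinuousLinearMap.fst ℝ ℝ ℝ) w := hasFDerivAt_fst
  have hs : HasFDerivAt (fun w : ℝ × ℝ => w.2) (ContinuousLinearMap.snd ℝ ℝ ℝ) w := hasFDerivAt_snd
  have h2 := (hs.mul hf.exp).add hf
  have h3 := hs.mul h2
  have h := (hs.prodMk (h2.prodMk h3)).fderiv
  have h' : fderiv ℝ Ps w = _ := h
  rw [h', injective_iff_map_eq_zero]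
  intro v hv
  simp only [ContinuousLinearMap.prod_apply, Prod.mk_eq_zero, add_apply,
    smul_apply, ContinuousLinearMap.coe_fst', ContinuousLinearMap.coe_snd',
    smul_eq_mul] at hv
  obtain ⟨h1, h2, -⟩ := hv
  rw [h1] at h2
  have hpos : 0 < w.2 * Real.exp w.1 + 1 := by
    have := mul_pos (show 0 < w.2 from hw) (Real.exp_pos w.1)
    linarith
  have : (w.2 * Real.exp w.1 + 1) * v.1 = 0 := by linarith
  rcases mul_eq_zero.1 this with h | h
  · exact absurd h hpos.ne'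
  · exact Prod.ext h h1

theorem example_ok : LineAndParabola Om Ps Aa Bb (fun _ => 0) (fun w => w.1) (fun _ => 1)
    (fun w => Real.exp w.1) (fun w => Real.exp w.1) (fun w => w.1) (fun _ => 0)
    (fun w => w.2 / 2) (fun w => 2 * w.2) where
  isOpen := isOpen_lt continuous_const continuous_snd
  connected := by
    have : Om = univ ×ˢ Ioi (0 : ℝ) := by
      ext w; simp [Om]
    rw [this]
    exact isConnected_univ.prod isConnected_Ioi
  analytic := by
    intro w _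
    have h1 : AnalyticAt ℝ (fun w : ℝ × ℝ => w.1) w := analyticAt_fst
    have h2 : AnalyticAt ℝ (fun w : ℝ × ℝ => w.2) w := analyticAt_snd
    have hy := (h2.mul h1.rexp).add h1
    exact h2.prod (hy.prod (h2.mul hy))
  immersion := Ps_fderiv_inj
  injective := Ps_injOn
  seg_analytic := by
    constructor
    · intro w _
      have h1 : AnalyticAt ℝ (fun w : ℝ × ℝ => w.1) w := analyticAt_fst
      have h2 : AnalyticAt ℝ (fun w : ℝ × ℝ => w.2) w := analyticAt_snd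
      have hy := ((h2.mul h1.rexp).add h1).sub (analyticAt_const (v := (1 : ℝ)))
      exact h2.prod (hy.prod (h2.mul hy))
    · intro w _
      have h1 : AnalyticAt ℝ (fun w : ℝ × ℝ => w.1) w := analyticAt_fst
      have h2 : AnalyticAt ℝ (fun w : ℝ × ℝ => w.2) w := analyticAt_snd
      have hy := ((h2.mul h1.rexp).add h1).add (analyticAt_const (v := (1 : ℝ)))
      exact h2.prod (hy.prod (h2.mul hy))
  seg_ne := by
    intro w _ h
    simp only [Aa, Bb, Prod.mk.injEq] at h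
    linarith [h.2.1]
  seg_mem := by
    intro w _
    refine ⟨1 / 2, 1 / 2, by norm_num, by norm_num, by norm_num, ?_⟩
    simp only [Aa, Bb, Ps, Prod.smul_mk, Prod.mk_add_mk, smul_eq_mul, Prod.mk.injEq]
    refine ⟨by ring, by ring, by ring⟩
  seg_sub := by
    rintro w hw q ⟨α, β, _, _, hαβ, rfl⟩
    rw [image_eq]
    have hw' : 0 < w.2 := hw
    simp only [Aa, Bb, Prod.smul_mk, Prod.mk_add_mk, smul_eq_mul, mem_ofPred_eq]
    have hβ : β = 1 - α := by linarith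
    subst hβ
    constructor
    · have : α * w.2 + (1 - α) * w.2 = w.2 := by ring
      rw [this]; exact hw'
    · ring
  arc_analytic := by
    have h1 : ∀ w : ℝ × ℝ, AnalyticAt ℝ (fun w : ℝ × ℝ => w.1) w := fun w => analyticAt_fst
    have h2 : ∀ w : ℝ × ℝ, AnalyticAt ℝ (fun w : ℝ × ℝ => w.2) w := fun w => analyticAt_snd
    exact ⟨fun w _ => analyticAt_const, fun w _ => h1 w, fun w _ => analyticAt_const,
      fun w _ => (h1 w).rexp, fun w _ => (h1 w).rexp, fun w _ => h1 w, fun w _ => analyticAt_const,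
      fun w _ => (h2 w).div analyticAt_const (by norm_num), fun w _ => analyticAt_const.mul (h2 w)⟩
  arc_ab := by
    intro w _ h
    simp at h
  arc_c := fun w _ => (Real.exp_pos _).ne'
  arc_mem := by
    intro w hw
    have hw' : 0 < w.2 := hw
    refine ⟨w.2, ⟨by linarith, by linarith⟩, ?_, ?_⟩
    · simp only [parab, Ps, Prod.mk.injEq]
      refine ⟨by ring, by ring, by ring⟩
    · rw [LinearIndependent.pair_iff]
      intro s t hst
      simp only [Aa, Bb, Prod.mk_sub_mk, Prod.smul_mk, Prod.mk_add_mk, smul_eq_mul,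
        Prod.mk_eq_zero] at hst
      obtain ⟨h1, h2, -⟩ := hst
      have ht : t = 0 := by linarith
      subst ht
      constructor
      · linarith
      · rfl
  arc_sub := by
    intro w hw τ hτ
    have hw' : 0 < w.2 := hw
    rw [image_eq]
    have : 0 < τ := by linarith [hτ.1]
    simp only [parab, mem_ofPred_eq]
    constructor
    · linarith
    · ring

/-! ## Non-representability -/

theorem lin_zero {a p : ℝ} {f : ℝ → ℝ} (hf : Tendsto f atBot (𝓝 p)) (h : ∀ t, a * t = f t) :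
    a = 0 := by
  have h1 : Tendsto (fun t : ℝ => f t - f (t - 1)) atBot (𝓝 (p - p)) := by
    refine hf.sub (hf.comp ?_)
    exact tendsto_atBot_add_const_right _ (-1) tendsto_id
  have h2 : (fun t : ℝ => f t - f (t - 1)) = fun _ => a := by
    funext t
    rw [← h, ← h]; ring
  rw [h2, sub_self] at h1
  exact tendsto_nhds_unique tendsto_const_nhds h1

theorem exp_indep {a b p q r : ℝ}
    (h : ∀ t : ℝ, a * t + b * t * Real.exp t = p + q * Real.exp t + r * Real.exp t ^ 2) :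
    a = 0 ∧ b = 0 := by
  have he : Tendsto (fun t : ℝ => Real.exp t) atBot (𝓝 0) := Real.tendsto_exp_atBot
  have hte : Tendsto (fun t : ℝ => t * Real.exp t) atBot (𝓝 0) := by
    have := (Real.tendsto_pow_mul_exp_neg_atTop_nhds_zero 1).comp tendsto_neg_atBot_atTop
    have h2 := this.neg
    simp only [neg_zero] at h2
    refine h2.congr fun t => ?_
    simp only [Function.comp, pow_one, neg_neg]
    ring
  have ha : a = 0 := by
    refine lin_zero (p := p + q * 0 + r * 0 ^ 2 - b * 0)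
      (f := fun t => p + q * Real.exp t + r * Real.exp t ^ 2 - b * (t * Real.exp t)) ?_ ?_
    · exact ((tendsto_const_nhds.add (he.const_mul q)).add ((he.pow 2).const_mul r)).sub
        (hte.const_mul b)
    · intro t
      linarith [h t]
  subst ha
  refine ⟨rfl, ?_⟩
  have hp : p = 0 := by
    have h1 : Tendsto (fun t : ℝ => b * (t * Real.exp t) - (q * Real.exp t + r * Real.exp t ^ 2))
        atBot (𝓝 (b * 0 - (q * 0 + r * 0 ^ 2))) :=
      (hte.const_mul b).sub ((he.const_mul q).add ((he.pow 2).const_mul r))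
    have h2 : (fun t : ℝ => b * (t * Real.exp t) - (q * Real.exp t + r * Real.exp t ^ 2))
        = fun _ => p := by
      funext t; linarith [h t]
    rw [h2] at h1
    have := tendsto_nhds_unique (tendsto_const_nhds (x := p) (f := atBot)) h1
    simpa using this
  refine lin_zero (p := q + r * 0) (f := fun t => q + r * Real.exp t)
    (tendsto_const_nhds.add (he.const_mul r)) ?_
  intro t
  have h1 := h t
  rw [hp] at h1
  have h2 : (b * t) * Real.exp t = (q + r * Real.exp t) * Real.exp t := by linarith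
  exact mul_right_cancel₀ (Real.exp_pos t).ne' h2

theorem exists_good {p : ℝ → Prop} (h : ∀ᵐ s : ℝ, p s) {x y : ℝ} (hxy : x < y) :
    ∃ s ∈ Ioo x y, p s := by
  by_contra hne
  push Not at hne
  have h1 : volume (Ioo x y) = 0 := by
    refine measure_mono_null ?_ (ae_iff.1 h)
    intro s hs
    exact hne s hs
  rw [Real.volume_Ioo] at h1
  simp at h1
  linarith

/-- The algebra at one value of `t`. -/
theorem step {p00 p01 p10 p11 q00 q01 q10 q11 c0 c1 d0 d1 E t v u1 u2 τ1 τ2 : ℝ}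
    (hτ : τ1 ≠ τ2)
    (hU1 : c0 + c1 * u1 ≠ 0) (hU2 : c0 + c1 * u2 ≠ 0) (hV : d0 + d1 * v ≠ 0)
    (hP1 : p00 + p01 * v + (p10 + p11 * v) * u1 = τ1 * ((c0 + c1 * u1) * (d0 + d1 * v)))
    (hP2 : p00 + p01 * v + (p10 + p11 * v) * u2 = τ2 * ((c0 + c1 * u2) * (d0 + d1 * v)))
    (hQ1 : q00 + q01 * v + (q10 + q11 * v) * u1
      = (τ1 * E + t) * ((c0 + c1 * u1) * (d0 + d1 * v)))
    (hQ2 : q00 + q01 * v + (q10 + q11 * v) * u2
      = (τ2 * E + t) * ((c0 + c1 * u2) * (d0 + d1 * v))) :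
    q00 + q01 * v = E * (p00 + p01 * v) + t * c0 * (d0 + d1 * v) ∧
    q10 + q11 * v = E * (p10 + p11 * v) + t * c1 * (d0 + d1 * v) ∧
    (p00 + p01 * v) * c1 - (p10 + p11 * v) * c0 ≠ 0 := by
  have hne : u1 ≠ u2 := by
    rintro rfl
    have : (τ1 - τ2) * ((c0 + c1 * u1) * (d0 + d1 * v)) = 0 := by linarith
    rcases mul_eq_zero.1 this with h | h
    · exact hτ (by linarith)
    · exact (mul_ne_zero hU1 hV) h
  have e1 : (q00 + q01 * v - E * (p00 + p01 * v) - t * c0 * (d0 + d1 * v)) +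
      (q10 + q11 * v - E * (p10 + p11 * v) - t * c1 * (d0 + d1 * v)) * u1 = 0 := by
    linear_combination hQ1 - E * hP1
  have e2 : (q00 + q01 * v - E * (p00 + p01 * v) - t * c0 * (d0 + d1 * v)) +
      (q10 + q11 * v - E * (p10 + p11 * v) - t * c1 * (d0 + d1 * v)) * u2 = 0 := by
    linear_combination hQ2 - E * hP2
  have e3 : (q10 + q11 * v - E * (p10 + p11 * v) - t * c1 * (d0 + d1 * v)) * (u1 - u2) = 0 := by
    linear_combination e1 - e2
  have e4 : q10 + q11 * v - E * (p10 + p11 * v) - t * c1 * (d0 + d1 * v) = 0 := by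
    rcases mul_eq_zero.1 e3 with h | h
    · exact h
    · exact absurd (by linarith) hne
  have e5 : q00 + q01 * v - E * (p00 + p01 * v) - t * c0 * (d0 + d1 * v) = 0 := by
    rw [e4] at e1; linarith
  refine ⟨by linarith, by linarith, ?_⟩
  intro h0
  -- `P(·, v)` is proportional to `U`
  have k1 : (τ1 - τ2) * ((c0 + c1 * u1) * (c0 + c1 * u2) * (d0 + d1 * v)) = 0 := by
    linear_combination (-(c0 + c1 * u2)) * hP1 + (c0 + c1 * u1) * hP2 + (u2 - u1) * h0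
  rcases mul_eq_zero.1 k1 with h | h
  · exact hτ (by linarith)
  · exact (mul_ne_zero (mul_ne_zero hU1 hU2) hV) h

theorem all_of_ae {a b p q r : ℝ}
    (h : ∀ᵐ t : ℝ, a * t + b * t * Real.exp t = p + q * Real.exp t + r * Real.exp t ^ 2) :
    a = 0 ∧ b = 0 := by
  have h1 : (fun t : ℝ => a * t + b * t * Real.exp t)
      = fun t : ℝ => p + q * Real.exp t + r * Real.exp t ^ 2 := by
    refine (Continuous.ae_eq_iff_eq volume ?_ ?_).1 h
    · fun_prop
    · fun_prop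
  exact exp_indep fun t => congrFun h1 t

theorem not_represented (E : Set (ℝ × ℝ × ℝ)) (hE : volume {w ∈ Om | Ps w ∈ E} = 0) :
    ¬ Represented Om Aa Bb (fun _ => 0) (fun w => w.1) (fun _ => 1)
      (fun w => Real.exp w.1) (fun w => Real.exp w.1) (fun w => w.1) (fun _ => 0)
      (fun w => w.2 / 2) (fun w => 2 * w.2) E := by
  rintro ⟨P, ⟨p, hP⟩, Q, ⟨q, hQ⟩, Z, -, U, ⟨c, hU⟩, V, ⟨d, hV⟩, hU0, -, -, harc⟩
  simp only [Finset.sum_range_succ, Finset.sum_range_zero, zero_add, pow_zero, pow_one, mul_one]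
    at hP hQ hU hV
  have hc : ¬ (c 0 0 = 0 ∧ c 1 0 = 0) := by
    rintro ⟨h0, h1⟩
    apply hU0
    funext u v
    rw [hU, h0, h1]
    simp
  have key : ∀ᵐ t : ℝ, ∃ v,
      (q 0 0 + q 0 1 * v = Real.exp t * (p 0 0 + p 0 1 * v) + t * c 0 0 * (d 0 0 + d 0 1 * v) ∧
      q 1 0 + q 1 1 * v = Real.exp t * (p 1 0 + p 1 1 * v) + t * c 1 0 * (d 0 0 + d 0 1 * v) ∧
      (p 0 0 + p 0 1 * v) * c 1 0 - (p 1 0 + p 1 1 * v) * c 0 0 ≠ 0) ∧
      d 0 0 + d 0 1 * v ≠ 0 := by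
    have h1 : ∀ᵐ w : ℝ × ℝ, ¬ (w ∈ Om ∧ Ps w ∈ E) := by
      rw [ae_iff]
      simpa using hE
    have h2 : ∀ᵐ t : ℝ, ∀ᵐ s : ℝ, ¬ ((t, s) ∈ Om ∧ Ps (t, s) ∈ E) := by
      rw [Measure.volume_eq_prod] at h1
      exact Measure.ae_ae_of_ae_prod h1
    filter_upwards [h2] with t ht
    obtain ⟨v, hv⟩ := harc (t, 1) (show (0 : ℝ) < 1 by norm_num)
    obtain ⟨τ1, hτ1, g1⟩ := exists_good ht (show (1 / 2 : ℝ) < 1 by norm_num)
    obtain ⟨τ2, hτ2, g2⟩ := exists_good ht (show (1 : ℝ) < 2 by norm_num)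
    have hpar : ∀ τ : ℝ, parab 0 t 1 (Real.exp t) (Real.exp t) t 0 τ = Ps (t, τ) := by
      intro τ
      simp only [parab, Ps, Prod.mk.injEq]
      refine ⟨by ring, by ring, by ring⟩
    have n1 : parab 0 t 1 (Real.exp t) (Real.exp t) t 0 τ1 ∉ E := by
      rw [hpar]
      exact fun h => g1 ⟨show (0 : ℝ) < τ1 by linarith [hτ1.1], h⟩
    have n2 : parab 0 t 1 (Real.exp t) (Real.exp t) t 0 τ2 ∉ E := by
      rw [hpar]
      exact fun h => g2 ⟨show (0 : ℝ) < τ2 by linarith [hτ2.1], h⟩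
    obtain ⟨u1, hu1, e1⟩ := hv τ1 ⟨by simp only; linarith [hτ1.1], by simp only; linarith [hτ1.2]⟩ n1
    obtain ⟨u2, hu2, e2⟩ := hv τ2 ⟨by simp only; linarith [hτ2.1], by simp only; linarith [hτ2.2]⟩ n2
    simp only at e1 e2
    rw [hpar] at e1 e2
    simp only [Ps, Prod.mk.injEq] at e1 e2
    obtain ⟨x1, y1, -⟩ := e1
    obtain ⟨x2, y2, -⟩ := e2
    rw [eq_div_iff hu1] at x1 y1
    rw [eq_div_iff hu2] at x2 y2
    rw [hU, hV] at hu1 hu2
    rw [hU, hV, hP] at x1 x2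
    rw [hU, hV, hQ] at y1 y2
    refine ⟨v, step (u1 := u1) (u2 := u2) (τ1 := τ1) (τ2 := τ2) ?_ (left_ne_zero_of_mul hu1)
      (left_ne_zero_of_mul hu2) (right_ne_zero_of_mul hu1) ?_ ?_ ?_ ?_, right_ne_zero_of_mul hu1⟩
    · intro h
      linarith [hτ1.2, hτ2.1]
    · linear_combination -x1
    · linear_combination -x2
    · linear_combination -y1
    · linear_combination -y2
  obtain ⟨k1, k2⟩ : (c 0 0 * (d 0 0 * (q 0 1 * c 1 0 - q 1 1 * c 0 0)
        - d 0 1 * (q 0 0 * c 1 0 - q 1 0 * c 0 0)) = 0 ∧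
      c 0 0 * (d 0 1 * (p 0 0 * c 1 0 - p 1 0 * c 0 0)
        - d 0 0 * (p 0 1 * c 1 0 - p 1 1 * c 0 0)) = 0) := by
    refine all_of_ae (p := q 0 0 * (q 0 1 * c 1 0 - q 1 1 * c 0 0)
        - q 0 1 * (q 0 0 * c 1 0 - q 1 0 * c 0 0))
      (q := - q 0 0 * (p 0 1 * c 1 0 - p 1 1 * c 0 0) + q 0 1 * (p 0 0 * c 1 0 - p 1 0 * c 0 0)
        - p 0 0 * (q 0 1 * c 1 0 - q 1 1 * c 0 0) + p 0 1 * (q 0 0 * c 1 0 - q 1 0 * c 0 0))
      (r := p 0 0 * (p 0 1 * c 1 0 - p 1 1 * c 0 0) - p 0 1 * (p 0 0 * c 1 0 - p 1 0 * c 0 0)) ?_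
    filter_upwards [key] with t ht
    obtain ⟨v, ⟨hA, hB, -⟩, -⟩ := ht
    linear_combination ((q 0 1 * c 1 0 - q 1 1 * c 0 0)
      - Real.exp t * (p 0 1 * c 1 0 - p 1 1 * c 0 0)) * (-hA) +
      (q 0 1 - Real.exp t * p 0 1 - t * c 0 0 * d 0 1) * (c 1 0 * hA - c 0 0 * hB)
  obtain ⟨k3, k4⟩ : (c 1 0 * (d 0 0 * (q 0 1 * c 1 0 - q 1 1 * c 0 0)
        - d 0 1 * (q 0 0 * c 1 0 - q 1 0 * c 0 0)) = 0 ∧
      c 1 0 * (d 0 1 * (p 0 0 * c 1 0 - p 1 0 * c 0 0)
        - d 0 0 * (p 0 1 * c 1 0 - p 1 1 * c 0 0)) = 0) := by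
    refine all_of_ae (p := q 1 0 * (q 0 1 * c 1 0 - q 1 1 * c 0 0)
        - q 1 1 * (q 0 0 * c 1 0 - q 1 0 * c 0 0))
      (q := - q 1 0 * (p 0 1 * c 1 0 - p 1 1 * c 0 0) + q 1 1 * (p 0 0 * c 1 0 - p 1 0 * c 0 0)
        - p 1 0 * (q 0 1 * c 1 0 - q 1 1 * c 0 0) + p 1 1 * (q 0 0 * c 1 0 - q 1 0 * c 0 0))
      (r := p 1 0 * (p 0 1 * c 1 0 - p 1 1 * c 0 0) - p 1 1 * (p 0 0 * c 1 0 - p 1 0 * c 0 0)) ?_
    filter_upwards [key] with t ht
    obtain ⟨v, ⟨hA, hB, -⟩, -⟩ := ht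
    linear_combination ((q 0 1 * c 1 0 - q 1 1 * c 0 0)
      - Real.exp t * (p 0 1 * c 1 0 - p 1 1 * c 0 0)) * (-hB) +
      (q 1 1 - Real.exp t * p 1 1 - t * c 1 0 * d 0 1) * (c 1 0 * hA - c 0 0 * hB)
  have a0 : d 0 0 * (q 0 1 * c 1 0 - q 1 1 * c 0 0)
      - d 0 1 * (q 0 0 * c 1 0 - q 1 0 * c 0 0) = 0 := by
    rcases mul_eq_zero.1 k1 with h | h
    · rcases mul_eq_zero.1 k3 with h' | h'
      · exact absurd ⟨h, h'⟩ hc
      · exact h'
    · exact h
  have a1 : d 0 1 * (p 0 0 * c 1 0 - p 1 0 * c 0 0)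
      - d 0 0 * (p 0 1 * c 1 0 - p 1 1 * c 0 0) = 0 := by
    rcases mul_eq_zero.1 k2 with h | h
    · rcases mul_eq_zero.1 k4 with h' | h'
      · exact absurd ⟨h, h'⟩ hc
      · exact h'
    · exact h
  -- the two linear relations at a good value of `t`
  have rel : ∀ᵐ t : ℝ,
      (q 0 1 * c 1 0 - q 1 1 * c 0 0) = Real.exp t * (p 0 1 * c 1 0 - p 1 1 * c 0 0) ∧
      (q 0 0 * c 1 0 - q 1 0 * c 0 0) = Real.exp t * (p 0 0 * c 1 0 - p 1 0 * c 0 0) := by
    filter_upwards [key] with t ht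
    obtain ⟨v, ⟨hA, hB, -⟩, hV'⟩ := ht
    have hD : ((q 0 1 * c 1 0 - q 1 1 * c 0 0)
        - Real.exp t * (p 0 1 * c 1 0 - p 1 1 * c 0 0)) * (d 0 0 + d 0 1 * v) = 0 := by
      linear_combination d 0 1 * (c 1 0 * hA - c 0 0 * hB) + a0 + Real.exp t * a1
    have hD' := (mul_eq_zero.1 hD).resolve_right hV'
    refine ⟨by linarith, ?_⟩
    linear_combination (c 1 0 * hA - c 0 0 * hB) - v * hD'
  obtain ⟨s1, hs1, r1, r1'⟩ := exists_good rel (show (0 : ℝ) < 1 by norm_num)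
  obtain ⟨s2, hs2, r2, r2'⟩ := exists_good rel (show (1 : ℝ) < 2 by norm_num)
  have hlt : Real.exp s1 < Real.exp s2 := Real.exp_lt_exp.2 (by linarith [hs1.2, hs2.1])
  have z1 : p 0 1 * c 1 0 - p 1 1 * c 0 0 = 0 := by
    have : (Real.exp s2 - Real.exp s1) * (p 0 1 * c 1 0 - p 1 1 * c 0 0) = 0 := by
      linear_combination r1 - r2
    rcases mul_eq_zero.1 this with h | h
    · linarith
    · exact h
  have z0 : p 0 0 * c 1 0 - p 1 0 * c 0 0 = 0 := by
    have : (Real.exp s2 - Real.exp s1) * (p 0 0 * c 1 0 - p 1 0 * c 0 0) = 0 := by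
      linear_combination r1' - r2'
    rcases mul_eq_zero.1 this with h | h
    · linarith
    · exact h
  obtain ⟨s, -, v, ⟨-, -, hne⟩, -⟩ := exists_good key (show (0 : ℝ) < 1 by norm_num)
  apply hne
  linear_combination z0 + v * z1

/-- **Main theorem.** There is an analytic surface (the part `x > 0` of the paraboloid `z = xy`)
with a straight segment and a transversal vertical-axis parabolic arc through each point, contained
in the surface and depending analytically on the point, such that for no set `E` whose trace on the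
surface is negligible (for instance at most one-dimensional) the segments and arcs are, outside of
`E`, contained in the curves `u = const` and `v = const` of a map `(P/(UV), Q/(UV), Z/(U²V))` with
`P, Q ∈ ℝ_{1,1}`, `Z ∈ ℝ_{2,1}` and nonzero `U ∈ ℝ_{1,0}`, `V ∈ ℝ_{0,1}`. -/
theorem result : ∃ (Ω : Set (ℝ × ℝ)) (Ψ A B : ℝ × ℝ → ℝ × ℝ × ℝ)
    (x₀ y₀ a b c d e t₁ t₂ : ℝ × ℝ → ℝ),
    LineAndParabola Ω Ψ A B x₀ y₀ a b c d e t₁ t₂ ∧
    Ψ '' Ω = {q : ℝ × ℝ × ℝ | 0 < q.1 ∧ q.2.2 = q.1 * q.2.1} ∧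
    ∀ E : Set (ℝ × ℝ × ℝ), volume {w ∈ Ω | Ψ w ∈ E} = 0 →
      ¬ Represented Ω A B x₀ y₀ a b c d e t₁ t₂ E :=
  ⟨_, _, _, _, _, _, _, _, _, _, _, _, _, example_ok, image_eq, not_represented⟩

end Pool.Agent.Results.MP_67bdec_gt.TranscendentalFamily
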